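import Pool.Agent.Y542.ES.Wb
import Pool.Agent.Y245.SC.Stm5

/-!
Project ES (helper245), part ES-WV (job 9088, helper542): Wiman-Valiron data at isolated essential
singularities.
-/

set_option autoImplicit false

open Complex Metric Set Filter Topology

namespace Pool.Agent.Y542.ES

open Pool.Agent.Y245.SC (WV Ess S_WV2 S_LAUR S_NORM2)

theorem growth (m : ℕ) (B : ℝ) : ∃ Y0 : ℝ, 1000 ≤ Y0 ∧ ∀ y : ℝ, Y0 ≤ y →
    1024 * (B * Real.exp (y ^ 28)) ≤ Real.exp (y ^ 60 / 8) ∧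
    2 * y ^ (64 * m) ≤ Real.exp (y ^ 60 / 8) := by
  refine ⟨max 1000 (max (2 * ((64 * m + 1).factorial : ℝ)) (1024 * B)), le_max_left _ _, ?_⟩
  intro y hy
  have h1 : 1000 ≤ y := (le_max_left _ _).trans hy
  have h2 : 2 * ((64 * m + 1).factorial : ℝ) ≤ y := ((le_max_left _ _).trans (le_max_right _ _)).trans hy
  have h3 : 1024 * B ≤ y := ((le_max_right _ _).trans (le_max_right _ _)).trans hy
  have hy0 : 0 < y := by linarith
  have hy1 : 1 ≤ y := by linarith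
  have e1 : y ≤ y ^ 28 := le_self_pow₀ hy1 (by norm_num)
  have e2 : 16 ≤ y ^ 32 := by
    calc (16 : ℝ) ≤ y := by linarith
      _ ≤ y ^ 32 := le_self_pow₀ hy1 (by norm_num)
  have e3 : y ≤ y ^ 60 / 8 - y ^ 28 := by
    have e4 : y ^ 60 / 8 - y ^ 28 = y ^ 28 * (y ^ 32 / 8 - 1) := by ring
    rw [e4]
    calc y ≤ y ^ 28 * 1 := by linarith
      _ ≤ y ^ 28 * (y ^ 32 / 8 - 1) := mul_le_mul_of_nonneg_left (by linarith) (by positivity)
  constructor
  · have h4 : Real.exp (y ^ 60 / 8) = Real.exp (y ^ 28) * Real.exp (y ^ 60 / 8 - y ^ 28) := by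
      rw [← Real.exp_add]; congr 1; ring
    have h5 : 1024 * B ≤ Real.exp (y ^ 60 / 8 - y ^ 28) := by
      calc 1024 * B ≤ y := h3
        _ ≤ y + 1 := by linarith
        _ ≤ Real.exp y := Real.add_one_le_exp y
        _ ≤ _ := Real.exp_le_exp.2 e3
    rw [h4]
    calc 1024 * (B * Real.exp (y ^ 28)) = Real.exp (y ^ 28) * (1024 * B) := by ring
      _ ≤ _ := mul_le_mul_of_nonneg_left h5 (Real.exp_pos _).le
  · have hf : (0 : ℝ) < (64 * m + 1).factorial := by exact_mod_cast Nat.factorial_pos _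
    have h4 : y ^ (64 * m + 1) / ((64 * m + 1).factorial : ℝ) ≤ Real.exp y :=
      Real.pow_div_factorial_le_exp y hy0.le _
    have h5 : 2 * y ^ (64 * m) ≤ y ^ (64 * m + 1) / ((64 * m + 1).factorial : ℝ) := by
      rw [le_div_iff₀ hf, pow_succ]
      calc 2 * y ^ (64 * m) * ((64 * m + 1).factorial : ℝ) =
            y ^ (64 * m) * (2 * ((64 * m + 1).factorial : ℝ)) := by ring
        _ ≤ y ^ (64 * m) * y := mul_le_mul_of_nonneg_left h2 (by positivity)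
    have h6 : Real.exp y ≤ Real.exp (y ^ 60 / 8) := by
      refine Real.exp_le_exp.2 ?_
      have : 0 ≤ y ^ 28 := by positivity
      linarith
    linarith

/-- the central term is large -/
theorem mu_large (f : ℕ → ℂ) (N K : ℕ) (r y : ℝ) (m : ℕ) (hr : 1 ≤ r) (hND : ND f N r)
    (hyN : y = (N : ℝ) ^ (1 / 64 : ℝ)) (hK : m + 1 ≤ K) (hKN : 2 * K ≤ N) (hfK : 1 ≤ ‖f K‖ * r) :
    r ^ m * Real.exp (y ^ 60 / 8) ≤ ‖f N‖ * r ^ N := by
  obtain ⟨y', hy1, hyN', h64, h36, h68, h4, h2⟩ := y_spec N hND.1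
  rw [← hyN] at hyN'
  subst hyN'
  have hy0 : 0 < y' := by linarith
  have h1 := hND.2.2.1 K
  have hKN' : 2 * (K : ℝ) ≤ N := by exact_mod_cast hKN
  have hK0 : (0 : ℝ) ≤ K := by positivity
  rw [max_eq_right (by linarith), h68] at h1
  have h3 : y' ^ 60 / 8 ≤ ((K : ℝ) - N) ^ 2 / (2 * y' ^ 68) := by
    rw [div_le_div_iff₀ (by norm_num) (by positivity)]
    have e1 : (N : ℝ) ^ 2 / 4 ≤ ((K : ℝ) - N) ^ 2 := by
      have e2 : (N : ℝ) / 2 ≤ N - K := by linarith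
      have e3 : ((N : ℝ) / 2) ^ 2 ≤ (N - K) ^ 2 := pow_le_pow_left₀ (by positivity) e2 2
      have e4 : ((K : ℝ) - N) ^ 2 = (N - K) ^ 2 := by ring
      rw [e4]
      linarith
    have e5 : y' ^ 60 * (2 * y' ^ 68) = 2 * (N : ℝ) ^ 2 := by
      rw [← h64]; ring
    rw [e5]
    linarith
  have h5 : ‖f K‖ * r ^ K ≤ ‖f N‖ * r ^ N * Real.exp (-(y' ^ 60 / 8)) := by
    refine h1.trans (mul_le_mul_of_nonneg_left (Real.exp_le_exp.2 (by linarith)) (by positivity))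
  have h6 : r ^ m ≤ ‖f K‖ * r ^ K := by
    obtain ⟨j, rfl⟩ : ∃ j, K = j + 1 := ⟨K - 1, by omega⟩
    calc r ^ m ≤ r ^ j := pow_le_pow_right₀ hr (by omega)
      _ = r ^ j * 1 := by ring
      _ ≤ r ^ j * (‖f (j + 1)‖ * r) := mul_le_mul_of_nonneg_left hfK (by positivity)
      _ = ‖f (j + 1)‖ * r ^ (j + 1) := by ring
  have h7 := mul_le_mul_of_nonneg_right (h6.trans h5) (Real.exp_pos (y' ^ 60 / 8)).le
  rw [mul_assoc, ← Real.exp_add, neg_add_cancel, Real.exp_zero, mul_one] at h7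
  exact h7

theorem wv2 : S_WV2 := by
  intro hL hNm c ρ X hρ hEss m N0
  obtain ⟨F, B, hFd, hFB⟩ := hL c ρ X hρ hEss.1
  set R0 : ℝ := 2 / ρ with hR0
  have hR00 : 0 < R0 := by positivity
  have hB : 0 ≤ B := by
    have := hFB (R0 : ℂ) (by rw [Complex.norm_real, Real.norm_eq_abs, abs_of_pos hR00])
    exact (norm_nonneg _).trans this
  set f : ℕ → ℂ := fun n => iteratedDeriv n F 0 / n.factorial with hf
  have hF : ∀ ζ, HasSum (fun n => f n * ζ ^ n) (F ζ) := by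
    intro ζ
    have h1 := Complex.hasSum_taylorSeries_of_entire hFd 0 ζ
    have e : (fun n => f n * ζ ^ n) = fun n : ℕ => (n.factorial : ℂ)⁻¹ • (ζ - 0) ^ n • iteratedDeriv n F 0 := by
      funext n
      rw [hf]
      simp only [smul_eq_mul, sub_zero]
      field_simp
    rw [e]
    exact h1
  have hsum : ∀ R : ℝ, 0 < R → Summable fun n => ‖f n‖ * R ^ n := by
    intro R hR
    have h1 := (hF (R : ℂ)).summable.norm
    refine h1.congr fun n => ?_
    rw [norm_mul, norm_pow, Complex.norm_real, Real.norm_eq_abs, abs_of_pos hR]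
  have hinf : ∀ n0 : ℕ, ∃ n ≥ n0, f n ≠ 0 := by
    by_contra hcon
    push Not at hcon
    obtain ⟨n0, hn0⟩ := hcon
    have hpoly : ∀ ζ, F ζ = ∑ n ∈ Finset.range n0, f n * ζ ^ n := by
      intro ζ
      refine (hF ζ).unique (hasSum_sum_of_ne_finset_zero fun n hn => ?_)
      rw [Finset.mem_range, not_lt] at hn
      rw [hn0 n hn, zero_mul]
    set A : ℝ := ∑ n ∈ Finset.range n0, ‖f n‖ with hA
    have hev : ∀ᶠ ω in 𝓝[≠] c, ‖X ω‖ * ‖ω - c‖ ^ n0 ≤ A + B := by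
      have h1 : ∀ᶠ ω in 𝓝[≠] c, ‖ω - c‖ < min 1 (ρ / 2) := by
        refine nhdsWithin_le_nhds ?_
        have : ball c (min 1 (ρ / 2)) ∈ 𝓝 c := ball_mem_nhds c (by positivity)
        filter_upwards [this] with ω hω
        rwa [mem_ball, dist_eq_norm] at hω
      filter_upwards [h1, self_mem_nhdsWithin] with ω hω1 hω2
      have hne : ω - c ≠ 0 := sub_ne_zero.2 hω2
      have hpos : 0 < ‖ω - c‖ := norm_pos_iff.2 hne
      have hlt1 : ‖ω - c‖ < 1 := hω1.trans_le (min_le_left _ _)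
      have hlt2 : ‖ω - c‖ < ρ / 2 := hω1.trans_le (min_le_right _ _)
      set ζ : ℂ := 1 / (ω - c) with hζ
      have hζn : ‖ζ‖ = 1 / ‖ω - c‖ := by rw [hζ, norm_div, norm_one]
      have hζ1 : 1 ≤ ‖ζ‖ := by rw [hζn, le_div_iff₀ hpos]; linarith
      have hζR : 2 / ρ ≤ ‖ζ‖ := by
        rw [hζn, div_le_div_iff₀ hρ hpos]
        linarith
      have h3 := hFB ζ hζR
      have e1 : c + 1 / ζ = ω := by rw [hζ]; field_simp; ring
      rw [e1] at h3
      have h4 : ‖F ζ‖ ≤ A * ‖ζ‖ ^ n0 := by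
        rw [hpoly, hA, Finset.sum_mul]
        refine (norm_sum_le _ _).trans (Finset.sum_le_sum fun n hn => ?_)
        rw [Finset.mem_range] at hn
        rw [norm_mul, norm_pow]
        exact mul_le_mul_of_nonneg_left (pow_le_pow_right₀ hζ1 hn.le) (norm_nonneg _)
      have h5 : ‖X ω‖ ≤ (A + B) * ‖ζ‖ ^ n0 := by
        have h6 : ‖X ω‖ ≤ ‖F ζ‖ + ‖X ω - F ζ‖ := by
          have := norm_add_le (F ζ) (X ω - F ζ)
          rwa [add_sub_cancel] at this
        have h7 : B ≤ B * ‖ζ‖ ^ n0 := le_mul_of_one_le_right hB (one_le_pow₀ hζ1)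
        rw [add_mul]
        linarith
      have e2 : ‖ζ‖ ^ n0 * ‖ω - c‖ ^ n0 = 1 := by
        rw [← mul_pow, hζn, one_div, inv_mul_cancel₀ hpos.ne', one_pow]
      calc ‖X ω‖ * ‖ω - c‖ ^ n0 ≤ (A + B) * ‖ζ‖ ^ n0 * ‖ω - c‖ ^ n0 :=
            mul_le_mul_of_nonneg_right h5 (by positivity)
        _ = A + B := by rw [mul_assoc, e2, mul_one]
    obtain ⟨ω, h1, h2⟩ := ((hEss.2 n0 (A + B)).and_eventually hev).exists
    linarith
  obtain ⟨K, hKm, hfK⟩ := hinf (m + 1)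
  obtain ⟨Y0, hY0, hgr⟩ := growth m B
  obtain ⟨Ct, hCt, hcore⟩ := core
  have hfK0 : 0 < ‖f K‖ := norm_pos_iff.2 hfK
  set Nn : ℕ := N0 + 2 * K + ⌈1024 * Ct⌉₊ + ⌈Y0 ^ 64⌉₊ + (⌈3 * R0⌉₊ + 1) + ⌈1 / ‖f K‖⌉₊ with hNn
  obtain ⟨N, r, hN1, hr1, hNpos, hfN, hq, hl⟩ := hNm f hsum hinf Nn
  have hNr : (0 : ℝ) < N := by exact_mod_cast hNpos
  have hND : ND f N r := by
    refine ⟨hNpos, hfN, hq, fun n hn => ?_⟩
    have h1 := hl n (by omega)
    have e : ((n : ℝ) - N) * (N : ℝ) ^ (-(1 / 16 : ℝ)) / 4 = ((n : ℝ) - N) / (4 * (N : ℝ) ^ (1 / 16 : ℝ)) := by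
      rw [Real.rpow_neg hNr.le]
      field_simp
    rw [e]
    exact h1
  obtain ⟨y, hy1, hyN, h64, -, -, -, -⟩ := y_spec N hNpos
  have hcast : ∀ a : ℕ, a ≤ Nn → (a : ℝ) ≤ N ∧ (a : ℝ) ≤ r := by
    intro a ha
    have h1 : (a : ℝ) ≤ Nn := by exact_mod_cast ha
    have h2 : (Nn : ℝ) ≤ N := by exact_mod_cast hN1
    exact ⟨h1.trans h2, h1.trans hr1⟩
  have hyY : Y0 ≤ y := by
    have h1 : Y0 ^ 64 ≤ y ^ 64 := by
      rw [h64]
      exact (Nat.le_ceil _).trans (hcast _ (by omega)).1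
    exact le_of_pow_le_pow_left₀ (by norm_num) (by linarith) h1
  have hr3 : 3 * R0 < r := by
    have h1 := (hcast (⌈3 * R0⌉₊ + 1) (by omega)).2
    have h2 := Nat.le_ceil (3 * R0)
    push_cast at h1
    linarith
  have hr11 : 1 ≤ r := by
    have h1 := (hcast 1 (by omega)).2
    simpa using h1
  have hfKr : 1 ≤ ‖f K‖ * r := by
    have h1 := (Nat.le_ceil (1 / ‖f K‖)).trans (hcast (⌈1 / ‖f K‖⌉₊) (by omega)).2
    rw [div_le_iff₀ hfK0] at h1
    linarith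
  have hmu := mu_large f N K r y m hr11 hND hyN hKm (by omega) hfKr
  obtain ⟨hg1, hg2⟩ := hgr y hyY
  have hrm : 1 ≤ r ^ m := one_le_pow₀ hr11
  have hGd : DifferentiableOn ℂ (fun ζ => X (c + 1 / ζ)) {ζ | R0 < ‖ζ‖} := by
    refine hEss.1.comp ?_ ?_
    · intro ζ hζ
      have hζ0 : ζ ≠ 0 := by
        rintro rfl
        rw [mem_ofPred_eq, norm_zero] at hζ
        linarith
      exact ((differentiableAt_const _).add ((differentiableAt_const _).div differentiableAt_id hζ0)).differentiableWithinAt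
    · intro ζ hζ
      rw [mem_ofPred_eq] at hζ
      have hζ0 : 0 < ‖ζ‖ := hR00.trans hζ
      have hζne : ζ ≠ 0 := norm_pos_iff.1 hζ0
      refine ⟨?_, ?_⟩
      · rw [mem_ball, dist_eq_norm, add_sub_cancel_left, norm_div, norm_one, div_lt_iff₀ hζ0]
        rw [hR0, div_lt_iff₀ hρ] at hζ
        linarith
      · rw [mem_singleton_iff]
        intro h
        have : (1 : ℂ) / ζ = 0 := by
          have h2 : c + 1 / ζ = c + 0 := (show c + 1 / ζ = c from h).trans (add_zero c).symm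
          exact add_left_cancel h2
        exact one_div_ne_zero hζne this
  have hexp : Real.exp (y ^ 60 / 8) ≤ ‖f N‖ * r ^ N := by
    refine le_trans ?_ hmu
    exact le_mul_of_one_le_left (Real.exp_pos _).le hrm
  obtain ⟨ζm, H, hWV, hM⟩ := hcore f F (fun ζ => X (c + 1 / ζ)) B R0 N r hB hR00 hFd (fun n => rfl) hF
    (fun ζ hζ => hFB ζ hζ) hGd hr3 hND ((Nat.le_ceil _).trans (hcast _ (by omega)).1)
    (by rw [← hyN]; linarith) (by rw [← hyN]; exact hg1.trans hexp)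
  refine ⟨N, r, ζm, H, by omega, ?_, hWV, ?_⟩
  · exact (hcast N0 (by omega)).2
  · have e1 : (N : ℝ) ^ m = y ^ (64 * m) := by rw [← h64, ← pow_mul]
    have e2 : 2 * ((N : ℝ) ^ m * r ^ m) ≤ r ^ m * Real.exp (y ^ 60 / 8) := by
      rw [e1]
      calc 2 * (y ^ (64 * m) * r ^ m) = r ^ m * (2 * y ^ (64 * m)) := by ring
        _ ≤ _ := mul_le_mul_of_nonneg_left hg2 (by positivity)
    have hM' : ‖f N‖ * r ^ N ≤ 2 * ‖X (c + 1 / ζm)‖ := hM
    linarith

end Pool.Agent.Y542.ES
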