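import Mathlib

/-!
Project ES (helper245), part ES-WV (job 9088, helper542): tools.
-/

set_option autoImplicit false

open Complex Metric Set Filter Topology

namespace Pool.Agent.Y542.ES

/-! ### maximum principle for trigonometric polynomials -/

theorem trig_left (W : ℕ) (a : ℕ → ℂ) (M : ℝ)
    (h : ∀ θ : ℝ, ‖∑ j ∈ Finset.range (2 * W + 1), a j * exp (((j : ℂ) - W) * (θ * I))‖ ≤ M)
    (τ : ℂ) (hτ : τ.re ≤ 0) :
    ‖∑ j ∈ Finset.range (2 * W + 1), a j * exp (((j : ℂ) - W) * τ)‖ ≤ M * Real.exp (W * |τ.re|) := by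
  set p : ℂ → ℂ := fun z => ∑ j ∈ Finset.range (2 * W + 1), a j * z ^ j with hp
  have e1 : ∀ τ : ℂ, ∑ j ∈ Finset.range (2 * W + 1), a j * exp (((j : ℂ) - W) * τ) =
      exp (-(W * τ)) * p (exp τ) := by
    intro τ
    rw [hp, Finset.mul_sum]
    refine Finset.sum_congr rfl fun j _ => ?_
    rw [← exp_nat_mul, mul_left_comm, ← exp_add]
    congr 2
    ring
  have hpd : Differentiable ℂ p := by
    rw [hp]
    fun_prop
  have h1 : ∀ z ∈ frontier (ball (0 : ℂ) 1), ‖p z‖ ≤ M := by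
    intro z hz
    rw [frontier_ball _ one_ne_zero, mem_sphere_zero_iff_norm] at hz
    have h2 : exp ((arg z : ℂ) * I) = z := by
      have := norm_mul_exp_arg_mul_I z
      rw [hz, ofReal_one, one_mul] at this
      exact this
    have h3 := h (arg z)
    rw [e1, h2, norm_mul, norm_exp] at h3
    have h4 : (-((W : ℂ) * ((arg z : ℂ) * I))).re = 0 := by simp
    rw [h4, Real.exp_zero, one_mul] at h3
    exact h3
  have h2 : ‖exp τ‖ ≤ 1 := by
    rw [norm_exp]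
    exact Real.exp_le_one_iff.2 hτ
  have h3 : ‖p (exp τ)‖ ≤ M := by
    refine norm_le_of_forall_mem_frontier_norm_le isBounded_ball (hpd.diffContOnCl) h1 ?_
    rw [closure_ball _ one_ne_zero, mem_closedBall_zero_iff]
    exact h2
  rw [e1, norm_mul, norm_exp]
  have h4 : (-((W : ℂ) * τ)).re = W * |τ.re| := by
    rw [abs_of_nonpos hτ]
    simp
  rw [h4, mul_comm]
  exact mul_le_mul_of_nonneg_right h3 (Real.exp_pos _).le

theorem trig_bound (W : ℕ) (a : ℕ → ℂ) (M : ℝ)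
    (h : ∀ θ : ℝ, ‖∑ j ∈ Finset.range (2 * W + 1), a j * exp (((j : ℂ) - W) * (θ * I))‖ ≤ M)
    (τ : ℂ) :
    ‖∑ j ∈ Finset.range (2 * W + 1), a j * exp (((j : ℂ) - W) * τ)‖ ≤ M * Real.exp (W * |τ.re|) := by
  rcases le_total τ.re 0 with hτ | hτ
  · exact trig_left W a M h τ hτ
  · have e : ∀ τ : ℂ, ∑ j ∈ Finset.range (2 * W + 1), a j * exp (((j : ℂ) - W) * τ) =
        ∑ j ∈ Finset.range (2 * W + 1), a (2 * W - j) * exp (((j : ℂ) - W) * -τ) := by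
      intro τ
      rw [← Finset.sum_range_reflect]
      refine Finset.sum_congr rfl fun j hj => ?_
      rw [Finset.mem_range] at hj
      have e2 : 2 * W + 1 - 1 - j = 2 * W - j := by omega
      rw [e2, Nat.cast_sub (by omega)]
      congr 2
      push_cast
      ring
    rw [e]
    have h1 := trig_left W (fun j => a (2 * W - j)) M (fun θ => by
      have h2 := h (-θ)
      rw [e] at h2
      convert h2 using 6
      push_cast
      ring) (-τ) (by simpa using hτ)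
    simpa using h1

/-- Schwarz lemma -/
theorem schwarz (Q : ℂ → ℂ) (R K : ℝ) (hR : 0 < R) (hd : DifferentiableOn ℂ Q (ball 0 R))
    (hb : ∀ τ ∈ ball (0 : ℂ) R, ‖Q τ‖ ≤ K) (τ : ℂ) (hτ : τ ∈ ball (0 : ℂ) R) :
    ‖Q τ - Q 0‖ ≤ 2 * K / R * ‖τ‖ := by
  have h0 : (0 : ℂ) ∈ ball (0 : ℂ) R := mem_ball_self hR
  have h1 : MapsTo Q (ball 0 R) (closedBall (Q 0) (2 * K)) := by
    intro x hx
    rw [mem_closedBall, dist_eq_norm]
    have := norm_sub_le (Q x) (Q 0)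
    have h2 := hb x hx
    have h3 := hb 0 h0
    linarith
  have h2 := Complex.dist_le_div_mul_dist_of_mapsTo_ball hd h1 hτ
  rw [dist_eq_norm, dist_zero_right] at h2
  exact h2

/-! ### real estimates; `y = N^(1/64)` -/

/-- `exp (-m^(1/32)/40) ≤ C / m³` -/
theorem exp_small : ∃ C : ℝ, 0 < C ∧ ∀ m : ℝ, 1 ≤ m → Real.exp (-(m ^ (1 / 32 : ℝ) / 40)) ≤ C / m ^ 3 := by
  refine ⟨(Nat.factorial 96 : ℝ) * 40 ^ 96, by positivity, fun m hm => ?_⟩
  have h0 : 0 < m := by linarith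
  set z : ℝ := m ^ (1 / 32 : ℝ) with hz
  have hz0 : 0 < z := Real.rpow_pos_of_pos h0 _
  have hz96 : z ^ 96 = m ^ 3 := by
    rw [hz, ← Real.rpow_natCast, ← Real.rpow_mul h0.le, ← Real.rpow_natCast]
    norm_num
  have h1 := Real.pow_div_factorial_le_exp (z / 40) (by positivity) 96
  rw [Real.exp_neg, inv_eq_one_div, div_le_div_iff₀ (Real.exp_pos _) (by positivity), one_mul]
  rw [div_le_iff₀ (by positivity), div_pow, div_le_iff₀ (by positivity), hz96] at h1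
  linarith

theorem y_spec (N : ℕ) (hN : 0 < N) : ∃ y : ℝ, 1 ≤ y ∧ y = (N : ℝ) ^ (1 / 64 : ℝ) ∧ y ^ 64 = N ∧
    (N : ℝ) ^ (-(9 / 16 : ℝ)) = (y ^ 36)⁻¹ ∧ (N : ℝ) ^ (17 / 16 : ℝ) = y ^ 68 ∧
    (N : ℝ) ^ (-(1 / 16 : ℝ)) = (y ^ 4)⁻¹ ∧ (N : ℝ) ^ (1 / 32 : ℝ) = y ^ 2 := by
  have h0 : (0 : ℝ) < N := by exact_mod_cast hN
  have h1 : (1 : ℝ) ≤ N := by exact_mod_cast hN
  have key : ∀ k : ℕ, ((N : ℝ) ^ (1 / 64 : ℝ)) ^ k = (N : ℝ) ^ ((k : ℝ) / 64) := by
    intro k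
    rw [← Real.rpow_natCast, ← Real.rpow_mul h0.le]
    congr 1
    ring
  refine ⟨(N : ℝ) ^ (1 / 64 : ℝ), Real.one_le_rpow h1 (by norm_num), rfl, ?_, ?_, ?_, ?_, ?_⟩
  · rw [key]; norm_num
  · rw [key, ← Real.rpow_neg h0.le]; norm_num
  · rw [key]; norm_num
  · rw [key, ← Real.rpow_neg h0.le]; norm_num
  · rw [key]; norm_num

/-- the data at a normal radius -/
def ND (f : ℕ → ℂ) (N : ℕ) (r : ℝ) : Prop := 0 < N ∧ f N ≠ 0 ∧
  (∀ n : ℕ, ‖f n‖ * r ^ n ≤ ‖f N‖ * r ^ N *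
    Real.exp (-(((n : ℝ) - N) ^ 2 / (2 * (max (n : ℝ) N) ^ (17 / 16 : ℝ))))) ∧
  ∀ n : ℕ, 4 * N ≤ n → ‖f n‖ * r ^ n ≤ ‖f N‖ * r ^ N *
    Real.exp (-(((n : ℝ) - N) * (N : ℝ) ^ (-(1 / 16 : ℝ)) / 4))

/-- one term of the rest -/
theorem term_bound : ∃ C : ℝ, 0 < C ∧ ∀ (f : ℕ → ℂ) (N : ℕ) (r y : ℝ), 0 ≤ r → ND f N r →
    3 ≤ y → y = (N : ℝ) ^ (1 / 64 : ℝ) → ∀ (n : ℕ) (x : ℝ), y ^ 35 < |(n : ℝ) - N| →
    x ≤ (y ^ 36)⁻¹ →
    ‖f n‖ * r ^ n * Real.exp (|(n : ℝ) - N| * x) ≤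
      ‖f N‖ * r ^ N * (C / (N * ((n : ℝ) + 1) ^ 2)) := by
  obtain ⟨C, hC, hsm⟩ := exp_small
  refine ⟨4 * C, by positivity, ?_⟩
  intro f N r y hr ⟨hN, hfN, hq, hl⟩ hy3 hyN n x hn hx
  obtain ⟨y', hy1, hyN', h64, h36, h68, h4, h2⟩ := y_spec N hN
  rw [← hyN] at hyN'
  subst hyN'
  have hN0 : (0 : ℝ) < N := by exact_mod_cast hN
  have hN1 : (1 : ℝ) ≤ N := by exact_mod_cast hN
  have hn0 : (0 : ℝ) ≤ n := by positivity
  have hy0 : (0 : ℝ) < y' := by linarith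
  have hμ : 0 ≤ ‖f N‖ * r ^ N := by positivity
  set j : ℝ := |(n : ℝ) - N| with hj
  have hj0 : 0 < j := lt_trans (by positivity) hn
  set m : ℝ := max (n : ℝ) N with hm
  have hm1 : 1 ≤ m := le_max_of_le_right hN1
  have hm0 : 0 < m := by linarith
  -- it suffices to bound the exponent
  have hfin : Real.exp (-(m ^ (1 / 32 : ℝ) / 40)) ≤ 4 * C / (N * ((n : ℝ) + 1) ^ 2) := by
    refine (hsm m hm1).trans ?_
    rw [div_le_div_iff₀ (by positivity) (by positivity)]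
    have g1 : (N : ℝ) ≤ m := le_max_right _ _
    have g2 : (n : ℝ) + 1 ≤ 2 * m := by
      have : (n : ℝ) ≤ m := le_max_left _ _
      linarith
    have g3 : ((n : ℝ) + 1) ^ 2 ≤ (2 * m) ^ 2 := pow_le_pow_left₀ (by positivity) g2 2
    have g4 : (N : ℝ) * ((n : ℝ) + 1) ^ 2 ≤ m * (2 * m) ^ 2 :=
      mul_le_mul g1 g3 (by positivity) (by positivity)
    calc C * (N * ((n : ℝ) + 1) ^ 2) ≤ C * (m * (2 * m) ^ 2) := mul_le_mul_of_nonneg_left g4 hC.le
      _ = 4 * C * m ^ 3 := by ring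
  have hxj : j * x ≤ j * (y' ^ 36)⁻¹ := mul_le_mul_of_nonneg_left hx hj0.le
  rcases lt_or_ge n (4 * N) with hcase | hcase
  · -- near the central index
    have hcase' : (n : ℝ) ≤ 4 * N := by exact_mod_cast hcase.le
    have hm4 : m ≤ 4 * N := max_le hcase' (by linarith)
    have g1 : m ^ (17 / 16 : ℝ) ≤ 5 * y' ^ 68 := by
      calc m ^ (17 / 16 : ℝ) ≤ (4 * N : ℝ) ^ (17 / 16 : ℝ) := Real.rpow_le_rpow hm0.le hm4 (by norm_num)
        _ = (4 : ℝ) ^ (17 / 16 : ℝ) * y' ^ 68 := by rw [Real.mul_rpow (by norm_num) hN0.le, h68]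
        _ ≤ 5 * y' ^ 68 := by
            refine mul_le_mul_of_nonneg_right ?_ (by positivity)
            have : ((4 : ℝ) ^ (17 / 16 : ℝ)) ^ 16 ≤ 5 ^ 16 := by
              rw [← Real.rpow_natCast, ← Real.rpow_mul (by norm_num)]
              norm_num
            exact le_of_pow_le_pow_left₀ (by norm_num) (by norm_num) this
    have g2 : j ^ 2 / (10 * y' ^ 68) ≤ ((n : ℝ) - N) ^ 2 / (2 * m ^ (17 / 16 : ℝ)) := by
      rw [hj, sq_abs]
      refine div_le_div_of_nonneg_left (sq_nonneg _) (by positivity) ?_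
      linarith
    have g3 : y' ^ 2 / 20 ≤ j ^ 2 / (10 * y' ^ 68) - j * (y' ^ 36)⁻¹ := by
      have e1 : j ^ 2 / (10 * y' ^ 68) - j * (y' ^ 36)⁻¹ = (j / y' ^ 36) * (j / (10 * y' ^ 32) - 1) := by
        field_simp
      have e2 : 1 / y' ≤ j / y' ^ 36 := by
        rw [div_le_div_iff₀ hy0 (by positivity), one_mul]
        calc y' ^ 36 = y' ^ 35 * y' := by ring
          _ ≤ j * y' := mul_le_mul_of_nonneg_right hn.le hy0.le
      have e3 : y' ^ 3 / 20 ≤ j / (10 * y' ^ 32) - 1 := by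
        have e4 : y' ^ 3 / 10 ≤ j / (10 * y' ^ 32) := by
          rw [div_le_div_iff₀ (by norm_num) (by positivity)]
          calc y' ^ 3 * (10 * y' ^ 32) = 10 * y' ^ 35 := by ring
            _ ≤ 10 * j := by linarith
            _ = j * 10 := by ring
        have e5 : (27 : ℝ) ≤ y' ^ 3 := by
          calc (27 : ℝ) = 3 ^ 3 := by norm_num
            _ ≤ y' ^ 3 := pow_le_pow_left₀ (by norm_num) hy3 3
        linarith
      rw [e1]
      calc y' ^ 2 / 20 = 1 / y' * (y' ^ 3 / 20) := by field_simp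
        _ ≤ (j / y' ^ 36) * (j / (10 * y' ^ 32) - 1) := mul_le_mul e2 e3 (by positivity) (by positivity)
    have g4 : m ^ (1 / 32 : ℝ) ≤ 2 * y' ^ 2 := by
      calc m ^ (1 / 32 : ℝ) ≤ (4 * N : ℝ) ^ (1 / 32 : ℝ) := Real.rpow_le_rpow hm0.le hm4 (by norm_num)
        _ = (4 : ℝ) ^ (1 / 32 : ℝ) * y' ^ 2 := by rw [Real.mul_rpow (by norm_num) hN0.le, h2]
        _ ≤ 2 * y' ^ 2 := by
            refine mul_le_mul_of_nonneg_right ?_ (by positivity)
            have : ((4 : ℝ) ^ (1 / 32 : ℝ)) ^ 32 ≤ 2 ^ 32 := by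
              rw [← Real.rpow_natCast, ← Real.rpow_mul (by norm_num)]
              norm_num
            exact le_of_pow_le_pow_left₀ (by norm_num) (by norm_num) this
    calc ‖f n‖ * r ^ n * Real.exp (j * x)
        ≤ ‖f N‖ * r ^ N * Real.exp (-(((n : ℝ) - N) ^ 2 / (2 * m ^ (17 / 16 : ℝ)))) * Real.exp (j * x) :=
          mul_le_mul_of_nonneg_right (hq n) (Real.exp_pos _).le
      _ = ‖f N‖ * r ^ N * Real.exp (-(((n : ℝ) - N) ^ 2 / (2 * m ^ (17 / 16 : ℝ))) + j * x) := by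
          rw [mul_assoc, ← Real.exp_add]
      _ ≤ ‖f N‖ * r ^ N * Real.exp (-(m ^ (1 / 32 : ℝ) / 40)) := by
          refine mul_le_mul_of_nonneg_left (Real.exp_le_exp.2 ?_) hμ
          linarith
      _ ≤ _ := mul_le_mul_of_nonneg_left hfin hμ
  · -- far from the central index
    have hcase' : (4 * N : ℝ) ≤ n := by exact_mod_cast hcase
    have hmn : m = n := max_eq_left (by linarith)
    have hjn : j = n - N := abs_of_nonneg (by linarith)
    have hn1 : (1 : ℝ) ≤ n := by linarith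
    have hnpos : (0 : ℝ) < n := by linarith
    have g1 : (n : ℝ) ^ (1 / 32 : ℝ) / 40 ≤ j * (y' ^ 4)⁻¹ / 4 - j * (y' ^ 36)⁻¹ := by
      have e1 : j * (y' ^ 36)⁻¹ ≤ j * (y' ^ 4)⁻¹ / 8 := by
        have e2 : (y' ^ 36)⁻¹ ≤ (y' ^ 4)⁻¹ / 8 := by
          rw [inv_eq_one_div, inv_eq_one_div, div_div, div_le_div_iff₀ (by positivity) (by positivity)]
          have e3 : (8 : ℝ) ≤ y' ^ 32 := by
            calc (8 : ℝ) ≤ 3 ^ 32 := by norm_num
              _ ≤ y' ^ 32 := pow_le_pow_left₀ (by norm_num) hy3 32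
          have e4 : y' ^ 36 = y' ^ 4 * y' ^ 32 := by ring
          rw [e4, one_mul, one_mul]
          exact mul_le_mul_of_nonneg_left e3 (by positivity)
        calc j * (y' ^ 36)⁻¹ ≤ j * ((y' ^ 4)⁻¹ / 8) := mul_le_mul_of_nonneg_left e2 hj0.le
          _ = j * (y' ^ 4)⁻¹ / 8 := by ring
      have e5 : (n : ℝ) / 2 ≤ j := by rw [hjn]; linarith
      have e6 : (n : ℝ) ^ (1 / 32 : ℝ) ≤ n * (y' ^ 4)⁻¹ := by
        have e7 : y' ^ 4 ≤ (n : ℝ) ^ (1 / 16 : ℝ) := by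
          have e8 : (N : ℝ) ^ (1 / 16 : ℝ) = y' ^ 4 := by
            rw [Real.rpow_neg hN0.le] at h4
            exact inv_injective h4
          rw [← e8]
          exact Real.rpow_le_rpow hN0.le (by linarith) (by norm_num)
        rw [← div_eq_mul_inv, le_div_iff₀ (by positivity)]
        calc (n : ℝ) ^ (1 / 32 : ℝ) * y' ^ 4 ≤ (n : ℝ) ^ (1 / 32 : ℝ) * (n : ℝ) ^ (1 / 16 : ℝ) :=
              mul_le_mul_of_nonneg_left e7 (by positivity)
          _ = (n : ℝ) ^ (3 / 32 : ℝ) := by rw [← Real.rpow_add hnpos]; norm_num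
          _ ≤ (n : ℝ) ^ (1 : ℝ) := Real.rpow_le_rpow_of_exponent_le hn1 (by norm_num)
          _ = n := Real.rpow_one _
      have e9 : n * (y' ^ 4)⁻¹ / 2 ≤ j * (y' ^ 4)⁻¹ := by
        have := mul_le_mul_of_nonneg_right e5 (show 0 ≤ (y' ^ 4)⁻¹ by positivity)
        linarith
      have e10 : 0 ≤ (n : ℝ) ^ (1 / 32 : ℝ) := by positivity
      linarith
    calc ‖f n‖ * r ^ n * Real.exp (j * x)
        ≤ ‖f N‖ * r ^ N * Real.exp (-(((n : ℝ) - N) * (N : ℝ) ^ (-(1 / 16 : ℝ)) / 4)) * Real.exp (j * x) :=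
          mul_le_mul_of_nonneg_right (hl n hcase) (Real.exp_pos _).le
      _ = ‖f N‖ * r ^ N * Real.exp (-(j * (y' ^ 4)⁻¹ / 4) + j * x) := by
          rw [mul_assoc, ← Real.exp_add, h4, ← hjn]
      _ ≤ ‖f N‖ * r ^ N * Real.exp (-(m ^ (1 / 32 : ℝ) / 40)) := by
          refine mul_le_mul_of_nonneg_left (Real.exp_le_exp.2 ?_) hμ
          rw [hmn]
          linarith
      _ ≤ _ := mul_le_mul_of_nonneg_left hfin hμ

end Pool.Agent.Y542.ES
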