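import Pool.Agent.Y542.ES.Wa
import Pool.Agent.Y245.SC.Stm4

/-!
Project ES (helper245), part ES-WV (job 9088, helper542): the core of the Wiman-Valiron argument.
-/

set_option autoImplicit false

open Complex Metric Set Filter Topology

namespace Pool.Agent.Y542.ES

open Pool.Agent.Y245.SC (WV)

/-- the Taylor polynomial around the central index -/
noncomputable def QQ (f : ℕ → ℂ) (N W : ℕ) (ζm τ : ℂ) : ℂ :=
  ∑ j ∈ Finset.range (2 * W + 1), (f (N - W + j) * ζm ^ (N - W + j)) * exp (((j : ℂ) - W) * τ)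

theorem sumZ : Summable fun n : ℕ => 1 / ((n : ℝ) + 1) ^ 2 := by
  have h := (summable_nat_add_iff 1).2 (Real.summable_one_div_nat_pow.2 (by norm_num : 1 < 2))
  simpa using h

/-- the rest -/
theorem rest : ∃ C : ℝ, 0 < C ∧ ∀ (f : ℕ → ℂ) (F : ℂ → ℂ) (N : ℕ) (r y : ℝ), 0 ≤ r → ND f N r →
    (∀ ζ, HasSum (fun n => f n * ζ ^ n) (F ζ)) →
    3 ≤ y → y = (N : ℝ) ^ (1 / 64 : ℝ) → ∀ ζm τ : ℂ, ‖ζm‖ = r → |τ.re| ≤ (y ^ 36)⁻¹ →
    ‖F (ζm * exp τ) * exp (-(N * τ)) - QQ f N ⌊y ^ 35⌋₊ ζm τ‖ ≤ ‖f N‖ * r ^ N * (C / N) := by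
  obtain ⟨C, hC, hterm⟩ := term_bound
  have hZ : 0 < ∑' n : ℕ, 1 / ((n : ℝ) + 1) ^ 2 := sumZ.tsum_pos (fun n => by positivity) 0 (by norm_num)
  refine ⟨C * ∑' n : ℕ, 1 / ((n : ℝ) + 1) ^ 2, by positivity, ?_⟩
  intro f F N r y hr hND hF hy3 hyN ζm τ hζ hτ
  obtain ⟨y', hy1, hyN', h64, h36, h68, h4, h2⟩ := y_spec N hND.1
  rw [← hyN] at hyN'
  subst hyN'
  have hN0 : (0 : ℝ) < N := by exact_mod_cast hND.1
  set W : ℕ := ⌊y' ^ 35⌋₊ with hW
  have hWN : W ≤ N := by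
    have h1 : (W : ℝ) ≤ y' ^ 35 := Nat.floor_le (by positivity)
    have h3 : y' ^ 35 ≤ y' ^ 64 := pow_le_pow_right₀ hy1 (by norm_num)
    rw [h64] at h3
    exact_mod_cast h1.trans h3
  set S : Finset ℕ := Finset.image (fun j => N - W + j) (Finset.range (2 * W + 1)) with hS
  set t : ℕ → ℂ := fun n => f n * ζm ^ n * exp (((n : ℂ) - N) * τ) with ht
  have hsum : HasSum t (F (ζm * exp τ) * exp (-(N * τ))) := by
    have h1 := (hF (ζm * exp τ)).mul_right (exp (-(N * τ)))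
    refine h1.congr_fun ?_ |> id
    intro n
    rw [ht]
    simp only
    rw [mul_pow, ← exp_nat_mul]
    have : exp (((n : ℂ) - N) * τ) = exp (n * τ) * exp (-(N * τ)) := by
      rw [← exp_add]; congr 1; ring
    rw [this]
    ring
  have hQ : QQ f N W ζm τ = ∑ n ∈ S, t n := by
    rw [hS, Finset.sum_image (fun a _ b _ h => by simpa using h)]
    unfold QQ
    refine Finset.sum_congr rfl fun j _ => ?_
    rw [ht]
    simp only
    congr 2
    push_cast [Nat.cast_sub hWN]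
    ring
  have h1 : HasSum (fun n => if n ∈ S then 0 else t n)
      (F (ζm * exp τ) * exp (-(N * τ)) - QQ f N W ζm τ) := by
    have h2 : HasSum (fun n => if n ∈ S then t n else 0) (∑ n ∈ S, t n) := by
      have h4 : HasSum (fun n => if n ∈ S then t n else 0) (∑ b ∈ S, (if b ∈ S then t b else 0)) :=
        hasSum_sum_of_ne_finset_zero (fun n hn => if_neg hn)
      rwa [Finset.sum_congr rfl (fun n hn => if_pos hn)] at h4
    have h3 := hsum.sub h2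
    rw [← hQ] at h3
    have e : (fun n => if n ∈ S then 0 else t n) = fun b => t b - if b ∈ S then t b else 0 := by
      funext n
      split_ifs <;> simp
    rw [e]
    exact h3
  rw [← h1.tsum_eq]
  have hg : HasSum (fun n : ℕ => ‖f N‖ * r ^ N * (C / N) * (1 / ((n : ℝ) + 1) ^ 2))
      (‖f N‖ * r ^ N * (C * (∑' n : ℕ, 1 / ((n : ℝ) + 1) ^ 2) / N)) := by
    have h4 := sumZ.hasSum.mul_left (‖f N‖ * r ^ N * (C / N))
    have e : ‖f N‖ * r ^ N * (C * (∑' n : ℕ, 1 / ((n : ℝ) + 1) ^ 2) / N) =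
        ‖f N‖ * r ^ N * (C / N) * ∑' n : ℕ, 1 / ((n : ℝ) + 1) ^ 2 := by ring
    rw [e]
    exact h4
  refine tsum_of_norm_bounded hg fun n => ?_
  split_ifs with hn
  · rw [norm_zero]; positivity
  · have hnW : y' ^ 35 < |(n : ℝ) - N| := by
      have h5 : y' ^ 35 < W + 1 := Nat.lt_floor_add_one _
      have h6 : ¬ (N - W ≤ n ∧ n ≤ N + W) := by
        intro h7
        apply hn
        rw [hS, Finset.mem_image]
        exact ⟨n - (N - W), Finset.mem_range.2 (by omega), by omega⟩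
      have h7 : n + W + 1 ≤ N ∨ N + W + 1 ≤ n := by omega
      refine lt_of_lt_of_le h5 ?_
      rcases h7 with h7 | h7
      · have h8 : (n : ℝ) + W + 1 ≤ N := by exact_mod_cast h7
        rw [abs_sub_comm]
        exact le_trans (by linarith) (le_abs_self _)
      · have h8 : (N : ℝ) + W + 1 ≤ n := by exact_mod_cast h7
        exact le_trans (by linarith) (le_abs_self _)
    have h8 := hterm f N r y' hr hND hy3 hyN n |τ.re| hnW hτ
    have h9 : ‖t n‖ ≤ ‖f n‖ * r ^ n * Real.exp (|(n : ℝ) - N| * |τ.re|) := by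
      rw [ht]
      simp only
      rw [norm_mul, norm_mul, norm_pow, hζ, norm_exp]
      refine mul_le_mul_of_nonneg_left (Real.exp_le_exp.2 ?_) (by positivity)
      have e1 : (((n : ℂ) - N) * τ).re = ((n : ℝ) - N) * τ.re := by simp
      rw [e1, ← abs_mul]
      exact le_abs_self _
    refine h9.trans (h8.trans (le_of_eq ?_))
    field_simp

theorem core : ∃ Ct : ℝ, 0 < Ct ∧ ∀ (f : ℕ → ℂ) (F G : ℂ → ℂ) (B R0 : ℝ) (N : ℕ) (r : ℝ), 0 ≤ B →
    0 < R0 → Differentiable ℂ F → (∀ n, f n = iteratedDeriv n F 0 / n.factorial) →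
    (∀ ζ, HasSum (fun n => f n * ζ ^ n) (F ζ)) →
    (∀ ζ, R0 ≤ ‖ζ‖ → ‖G ζ - F ζ‖ ≤ B) → DifferentiableOn ℂ G {ζ | R0 < ‖ζ‖} → 3 * R0 < r →
    ND f N r → 1024 * Ct ≤ N → 1000 ≤ (N : ℝ) ^ (1 / 64 : ℝ) →
    1024 * (B * Real.exp (((N : ℝ) ^ (1 / 64 : ℝ)) ^ 28)) ≤ ‖f N‖ * r ^ N →
    ∃ (ζm : ℂ) (H : ℂ → ℂ), WV G N r ζm H ∧ ‖f N‖ * r ^ N ≤ 2 * ‖G ζm‖ := by
  obtain ⟨Ct, hCt, hrest⟩ := rest
  refine ⟨Ct, hCt, ?_⟩
  intro f F G B R0 N r hB hR0 hFd hfn hF hGF hGd hr hND hN1 hy1000 hBig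
  obtain ⟨y, hy1, hyN, h64, h36, h68, h4, h2⟩ := y_spec N hND.1
  rw [← hyN] at hy1000 hBig
  have hr0 : 0 < r := by linarith
  have hN0 : (0 : ℝ) < N := by exact_mod_cast hND.1
  have hy0 : 0 < y := by linarith
  have hfN : 0 < ‖f N‖ := norm_pos_iff.2 hND.2.1
  set μ : ℝ := ‖f N‖ * r ^ N with hμ
  have hμ0 : 0 < μ := by positivity
  -- the maximum point
  have hopen : IsOpen {ζ : ℂ | R0 < ‖ζ‖} := isOpen_lt continuous_const continuous_norm
  have hsub : sphere (0 : ℂ) r ⊆ {ζ | R0 < ‖ζ‖} := by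
    intro ζ hζ
    rw [mem_sphere_zero_iff_norm] at hζ
    rw [mem_ofPred_eq, hζ]
    linarith
  have hGc : ContinuousOn (fun ζ => ‖G ζ‖) (sphere (0 : ℂ) r) := (hGd.continuousOn.mono hsub).norm
  obtain ⟨ζm, hζm, hmax⟩ := (isCompact_sphere (0 : ℂ) r).exists_isMaxOn
    (NormedSpace.sphere_nonempty.2 hr0.le) hGc
  rw [mem_sphere_zero_iff_norm] at hζm
  have hmax' : ∀ ζ : ℂ, ‖ζ‖ = r → ‖G ζ‖ ≤ ‖G ζm‖ := by
    intro ζ hζ
    exact hmax (mem_sphere_zero_iff_norm.2 hζ)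
  set M : ℝ := ‖G ζm‖ with hM
  have hexp1 : 1 ≤ Real.exp (y ^ 28) := Real.one_le_exp (by positivity)
  have hBμ : 1024 * B ≤ μ := by
    have := mul_le_mul_of_nonneg_left hexp1 hB
    linarith
  have hFG : ∀ ζ : ℂ, ‖ζ‖ = r → ‖F ζ‖ ≤ M + B := by
    intro ζ hζ
    have h1 := hGF ζ (by rw [hζ]; linarith)
    have h3 := hmax' ζ hζ
    have h5 : ‖F ζ‖ ≤ ‖G ζ‖ + ‖G ζ - F ζ‖ := by
      have : F ζ = G ζ - (G ζ - F ζ) := by ring
      calc ‖F ζ‖ = ‖G ζ - (G ζ - F ζ)‖ := by rw [← this]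
        _ ≤ _ := norm_sub_le _ _
    linarith
  have hμM : μ ≤ M + B := by
    have h1 := norm_iteratedDeriv_le_of_forall_mem_sphere_norm_le N hr0 (hFd.diffContOnCl (s := ball 0 r))
      (C := M + B) (fun z hz => hFG z (mem_sphere_zero_iff_norm.1 hz))
    rw [hμ, hfn N, norm_div, Complex.norm_natCast]
    have hNf : (0 : ℝ) < N.factorial := by exact_mod_cast Nat.factorial_pos N
    rw [div_mul_eq_mul_div, div_le_iff₀ hNf]
    rw [le_div_iff₀ (by positivity)] at h1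
    linarith
  have hM2 : μ ≤ 2 * M := by linarith
  have hM0 : 0 < M := by linarith
  -- the rest
  have hQ : ∀ τ : ℂ, |τ.re| ≤ (y ^ 36)⁻¹ →
      ‖F (ζm * exp τ) * exp (-(N * τ)) - QQ f N ⌊y ^ 35⌋₊ ζm τ‖ ≤ μ / 1024 := by
    intro τ hτ
    refine (hrest f F N r y hr0.le hND hF (by linarith) hyN ζm τ hζm hτ).trans ?_
    rw [← hμ]
    have h1 : Ct / N ≤ 1 / 1024 := by
      rw [div_le_div_iff₀ hN0 (by norm_num)]
      linarith
    calc μ * (Ct / N) ≤ μ * (1 / 1024) := mul_le_mul_of_nonneg_left h1 hμ0.le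
      _ = μ / 1024 := by ring
  have hQi : ∀ θ : ℝ, ‖QQ f N ⌊y ^ 35⌋₊ ζm (θ * I)‖ ≤ 2 * M := by
    intro θ
    have e1 : ((θ : ℂ) * I).re = 0 := by simp
    have h1 := hQ (θ * I) (by rw [e1, abs_zero]; positivity)
    have h3 : ‖F (ζm * exp (θ * I)) * exp (-(N * (θ * I)))‖ ≤ M + B := by
      have e2 : (-((N : ℂ) * (θ * I))).re = 0 := by simp
      rw [norm_mul, norm_exp, e2, Real.exp_zero, mul_one]
      refine hFG _ ?_
      rw [norm_mul, norm_exp, e1, Real.exp_zero, mul_one, hζm]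
    have h5 := norm_sub_le (F (ζm * exp (θ * I)) * exp (-(N * (θ * I))))
      (F (ζm * exp (θ * I)) * exp (-(N * (θ * I))) - QQ f N ⌊y ^ 35⌋₊ ζm (θ * I))
    rw [sub_sub_cancel] at h5
    linarith
  set W : ℕ := ⌊y ^ 35⌋₊ with hW
  have hWy : (W : ℝ) ≤ y ^ 35 := Nat.floor_le (by positivity)
  have hQb : ∀ τ ∈ ball (0 : ℂ) (y ^ 35)⁻¹, ‖QQ f N W ζm τ‖ ≤ 6 * M := by
    intro τ hτ
    rw [mem_ball_zero_iff] at hτ
    have h1 := trig_bound W (fun j => f (N - W + j) * ζm ^ (N - W + j)) (2 * M) hQi τ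
    refine h1.trans ?_
    have h3 : (W : ℝ) * |τ.re| ≤ 1 := by
      calc (W : ℝ) * |τ.re| ≤ y ^ 35 * (y ^ 35)⁻¹ :=
            mul_le_mul hWy ((abs_re_le_norm τ).trans hτ.le) (abs_nonneg _) (by positivity)
        _ = 1 := mul_inv_cancel₀ (by positivity)
    have h5 : Real.exp ((W : ℝ) * |τ.re|) ≤ 3 := by
      refine (Real.exp_le_exp.2 h3).trans ?_
      have := Real.exp_one_lt_d9
      linarith
    calc 2 * M * Real.exp ((W : ℝ) * |τ.re|) ≤ 2 * M * 3 := mul_le_mul_of_nonneg_left h5 (by linarith)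
      _ = 6 * M := by ring
  have hs35 : (y ^ 36)⁻¹ ≤ (y ^ 35)⁻¹ := inv_anti₀ (by positivity) (pow_le_pow_right₀ hy1 (by norm_num))
  have hQd : Differentiable ℂ (QQ f N W ζm) := by
    unfold QQ
    fun_prop
  have hQ0 : ∀ τ ∈ ball (0 : ℂ) (y ^ 36)⁻¹, ‖QQ f N W ζm τ - QQ f N W ζm 0‖ ≤ 12 * M / y := by
    intro τ hτ
    have h1 := schwarz (QQ f N W ζm) (y ^ 35)⁻¹ (6 * M) (by positivity) hQd.differentiableOn hQb τ
      (ball_subset_ball hs35 hτ)
    rw [mem_ball_zero_iff] at hτ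
    refine h1.trans ?_
    calc 2 * (6 * M) / (y ^ 35)⁻¹ * ‖τ‖ ≤ 2 * (6 * M) / (y ^ 35)⁻¹ * (y ^ 36)⁻¹ :=
          mul_le_mul_of_nonneg_left hτ.le (by positivity)
      _ = 12 * M / y := by
          have : y ^ 36 = y ^ 35 * y := by ring
          rw [this]
          field_simp
          norm_num
  -- the function T
  set T : ℂ → ℂ := fun τ => G (ζm * exp τ) * exp (-(N * τ)) with hT
  have hs1 : (y ^ 36)⁻¹ ≤ 1 := inv_le_one_of_one_le₀ (one_le_pow₀ hy1)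
  have hreg : ∀ τ ∈ ball (0 : ℂ) (y ^ 36)⁻¹, R0 < ‖ζm * exp τ‖ := by
    intro τ hτ
    rw [mem_ball_zero_iff] at hτ
    rw [norm_mul, hζm, norm_exp]
    have h1 : -1 ≤ τ.re := by
      have := (abs_le.1 (abs_re_le_norm τ)).1
      linarith
    have h3 : (1 : ℝ) / 3 ≤ Real.exp τ.re := by
      refine le_trans ?_ (Real.exp_le_exp.2 h1)
      rw [Real.exp_neg, one_div]
      have := Real.exp_one_lt_d9
      exact inv_anti₀ (Real.exp_pos 1) (by linarith)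
    calc R0 < r * (1 / 3) := by linarith
      _ ≤ r * Real.exp τ.re := mul_le_mul_of_nonneg_left h3 hr0.le
  have hNs : (N : ℝ) * (y ^ 36)⁻¹ = y ^ 28 := by
    rw [← h64]
    have : y ^ 64 = y ^ 28 * y ^ 36 := by ring
    rw [this]
    field_simp
  have hTQ : ∀ τ ∈ ball (0 : ℂ) (y ^ 36)⁻¹, ‖T τ - QQ f N W ζm τ‖ ≤ μ / 512 := by
    intro τ hτ
    have hτ' := hτ
    rw [mem_ball_zero_iff] at hτ'
    have hre : |τ.re| ≤ (y ^ 36)⁻¹ := (abs_re_le_norm τ).trans hτ'.le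
    have h1 := hQ τ hre
    have h3 : ‖T τ - F (ζm * exp τ) * exp (-(N * τ))‖ ≤ μ / 1024 := by
      rw [hT]
      simp only
      rw [← sub_mul, norm_mul, norm_exp]
      have h5 := hGF _ (hreg τ hτ).le
      have e1 : (-((N : ℂ) * τ)).re = -(N * τ.re) := by simp
      have h6 : Real.exp (-((N : ℂ) * τ)).re ≤ Real.exp (y ^ 28) := by
        rw [e1, ← hNs]
        refine Real.exp_le_exp.2 ?_
        have h7 := (abs_le.1 hre).1
        have h8 := mul_le_mul_of_nonneg_left h7 hN0.le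
        linarith
      have h9 : ‖G (ζm * exp τ) - F (ζm * exp τ)‖ * Real.exp (-((N : ℂ) * τ)).re ≤ B * Real.exp (y ^ 28) :=
        mul_le_mul h5 h6 (Real.exp_pos _).le hB
      linarith
    have h5 := norm_add_le (T τ - F (ζm * exp τ) * exp (-(N * τ)))
      (F (ζm * exp τ) * exp (-(N * τ)) - QQ f N W ζm τ)
    rw [sub_add_sub_cancel] at h5
    linarith
  have h0mem : (0 : ℂ) ∈ ball (0 : ℂ) (y ^ 36)⁻¹ := mem_ball_self (by positivity)
  have hT0 : T 0 = G ζm := by rw [hT]; simp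
  have hTT : ∀ τ ∈ ball (0 : ℂ) (y ^ 36)⁻¹, ‖T τ - T 0‖ ≤ M / 8 := by
    intro τ hτ
    have h1 := hTQ τ hτ
    have h3 := hTQ 0 h0mem
    have h5 := hQ0 τ hτ
    have h6 : 12 * M / y ≤ 12 * M / 1000 := div_le_div_of_nonneg_left (by linarith) (by norm_num) hy1000
    have h7 : ‖T τ - T 0‖ ≤ ‖T τ - QQ f N W ζm τ‖ + ‖QQ f N W ζm τ - QQ f N W ζm 0‖ +
        ‖T 0 - QQ f N W ζm 0‖ := by
      have e : T τ - T 0 = (T τ - QQ f N W ζm τ) + (QQ f N W ζm τ - QQ f N W ζm 0) -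
          (T 0 - QQ f N W ζm 0) := by ring
      rw [e]
      exact (norm_sub_le _ _).trans (add_le_add (norm_add_le _ _) le_rfl)
    linarith
  have hGm : G ζm ≠ 0 := norm_pos_iff.1 hM0
  have hTd : DifferentiableOn ℂ T (ball 0 (y ^ 36)⁻¹) := by
    have h1 : DifferentiableOn ℂ (fun τ => G (ζm * exp τ)) (ball 0 (y ^ 36)⁻¹) :=
      hGd.comp (by fun_prop) (fun τ hτ => hreg τ hτ)
    exact h1.mul (by fun_prop)
  set D : ℂ → ℂ := fun τ => T τ / G ζm with hD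
  have hD1 : ∀ τ ∈ ball (0 : ℂ) (y ^ 36)⁻¹, ‖D τ - 1‖ ≤ 1 / 8 := by
    intro τ hτ
    have h1 := hTT τ hτ
    have e : D τ - 1 = (T τ - T 0) / G ζm := by
      rw [hD, hT0]
      field_simp
    rw [e, norm_div, div_le_iff₀ hM0]
    linarith
  have hslit : ∀ τ ∈ ball (0 : ℂ) (y ^ 36)⁻¹, D τ ∈ slitPlane := by
    intro τ hτ
    left
    have h1 := hD1 τ hτ
    have h3 := (abs_le.1 ((abs_re_le_norm _).trans h1)).1
    rw [sub_re, one_re] at h3
    linarith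
  refine ⟨ζm, fun τ => log (D τ), ⟨hr0, hζm, hGm, hmax', ?_, ?_, ?_, ?_⟩, hM2⟩
  · rw [h36]
    exact (hTd.div_const _).clog hslit
  · have : D 0 = 1 := by rw [hD]; simp only; rw [hT0]; exact div_self hGm
    simp only
    rw [this, log_one]
  · rw [h36]
    intro τ hτ
    have h1 := hD1 τ hτ
    have h3 := norm_log_one_add_half_le_self (z := D τ - 1) (h1.trans (by norm_num))
    rw [add_sub_cancel] at h3
    linarith
  · rw [h36]
    intro τ hτ
    have hne : D τ ≠ 0 := slitPlane_ne_zero (hslit τ hτ)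
    rw [exp_add, exp_log hne, hD, hT]
    simp only
    rw [exp_neg]
    field_simp

end Pool.Agent.Y542.ES
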